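import Mathlib
import Pool.Agent.R356.Powers
import Pool.Agent.H340R2.LW

set_option autoImplicit false

/-!
# The numbers `e ^ (α e ^ n) π ^ (β e ^ n)` and `e ^ (α π ^ n) π ^ (β π ^ n)`

(1) Let `t` be a transcendental number and let `Y` be a space of complex numbers of finite dimension
`m` over the field of algebraic numbers. For all `n < N` with at most `2 m √(m N) + m ^ 2` exceptions,
no number `y t ^ n` with `y ∈ Y`, `y ≠ 0` is a linear combination with algebraic coefficients of `1`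
and of logarithms of algebraic numbers; in particular all numbers `exp (y t ^ n)` are transcendental.

(2) For all `n < N` with at most `8 √(2 N) + 8` exceptions, the numbers `e ^ (α e ^ n) π ^ (β e ^ n)`
and `e ^ (α π ^ n) π ^ (β π ^ n)` are transcendental for all algebraic numbers `α`, `β` with
`α + β log π ≠ 0`. For `n = 1` they include `e ^ e`, `π ^ e` and `π ^ π`.
-/

namespace Pool.Agent.Results.MP_a49cf6_nt.AlmostAllPowers

open Module

/-- the linear combinations, with algebraic coefficients, of `1` and of logarithms of algebraic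
numbers -/
noncomputable def logs : Submodule (algebraicClosure ℚ ℂ) ℂ :=
  Submodule.span (algebraicClosure ℚ ℂ) ({1} ∪ {z : ℂ | IsAlgebraic ℚ (Complex.exp z)})

/-- the exponents `n` for which `y t ^ n ∈ logs` for some nonzero `y ∈ Y` -/
def exceptions (t : ℂ) (Y : Submodule (algebraicClosure ℚ ℂ) ℂ) : Set ℕ :=
  {n | ∃ y ∈ Y, y ≠ 0 ∧ y * t ^ n ∈ logs}

/-- `e ^ (α t ^ n) π ^ (β t ^ n)` is transcendental for all algebraic `α`, `β` with
`α + β log π ≠ 0` -/
def AllTranscendental (t : ℝ) (n : ℕ) : Prop :=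
  ∀ α β : ℂ, IsAlgebraic ℚ α → IsAlgebraic ℚ β → α + β * Real.log Real.pi ≠ 0 →
    Transcendental ℚ (Complex.exp (α * (t : ℂ) ^ n) * (Real.pi : ℂ) ^ (β * (t : ℂ) ^ n))

theorem main (t : ℂ) (ht : Transcendental ℚ t) (Y : Submodule (algebraicClosure ℚ ℂ) ℂ)
    (hY : FiniteDimensional (algebraicClosure ℚ ℂ) Y) (N : ℕ) :
    ({n ∈ exceptions t Y | n < N}.ncard : ℝ) ≤
      2 * finrank (algebraicClosure ℚ ℂ) Y * √(finrank (algebraicClosure ℚ ℂ) Y * N) +
        (finrank (algebraicClosure ℚ ℂ) Y : ℝ) ^ 2 := by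
  classical
  have h := Pool.Agent.R356.card_exp ht Y N ((Finset.range N).filter fun n => n ∈ exceptions t Y)
    (fun n hn => Finset.mem_range.1 (Finset.mem_filter.1 hn).1)
    (fun n hn => (Finset.mem_filter.1 hn).2)
  have h2 : {n ∈ exceptions t Y | n < N} =
      (((Finset.range N).filter fun n => n ∈ exceptions t Y : Finset ℕ) : Set ℕ) := by
    ext n
    simp only [Set.mem_setOf_eq, Finset.coe_filter, Finset.mem_range]
    tauto
  rw [h2, Set.ncard_coe_finset]
  exact h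

/-- the space `Q̄ + Q̄ log π` -/
noncomputable def Y₀ : Submodule (algebraicClosure ℚ ℂ) ℂ :=
  Submodule.span (algebraicClosure ℚ ℂ) {1, (Real.log Real.pi : ℂ)}

theorem finrank_Y₀ : FiniteDimensional (algebraicClosure ℚ ℂ) Y₀ ∧
    finrank (algebraicClosure ℚ ℂ) Y₀ ≤ 2 := by
  classical
  have hfin : ({1, (Real.log Real.pi : ℂ)} : Set ℂ).Finite := Set.toFinite _
  refine ⟨FiniteDimensional.span_of_finite _ hfin, ?_⟩
  have h1 := finrank_span_finset_le_card (R := algebraicClosure ℚ ℂ)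
    ({1, (Real.log Real.pi : ℂ)} : Finset ℂ)
  have h2 : ({1, (Real.log Real.pi : ℂ)} : Finset ℂ).card ≤ 2 := Finset.card_le_two
  have h3 : ((({1, (Real.log Real.pi : ℂ)} : Finset ℂ)) : Set ℂ) = {1, (Real.log Real.pi : ℂ)} := by
    simp
  unfold Y₀
  rw [← h3]
  exact h1.trans h2

theorem not_all (t : ℝ) (n : ℕ) (h : ¬ AllTranscendental t n) : n ∈ exceptions t Y₀ := by
  unfold AllTranscendental at h
  push Not at h
  obtain ⟨α, β, hα, hβ, hne, halg⟩ := h
  unfold Transcendental at halg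
  rw [not_not] at halg
  refine ⟨α + β * Real.log Real.pi, ?_, hne, ?_⟩
  · have h1 : (1 : ℂ) ∈ Y₀ := Submodule.subset_span (by simp)
    have h2 : (Real.log Real.pi : ℂ) ∈ Y₀ := Submodule.subset_span (by simp)
    have h3 : (⟨α, mem_algebraicClosure_iff.2 hα⟩ : algebraicClosure ℚ ℂ) • (1 : ℂ) ∈ Y₀ :=
      Y₀.smul_mem _ h1
    have h4 : (⟨β, mem_algebraicClosure_iff.2 hβ⟩ : algebraicClosure ℚ ℂ) •
        (Real.log Real.pi : ℂ) ∈ Y₀ := Y₀.smul_mem _ h2
    have h5 := Y₀.add_mem h3 h4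
    have h6 : (⟨α, mem_algebraicClosure_iff.2 hα⟩ : algebraicClosure ℚ ℂ) • (1 : ℂ) +
        (⟨β, mem_algebraicClosure_iff.2 hβ⟩ : algebraicClosure ℚ ℂ) • (Real.log Real.pi : ℂ) =
        α + β * Real.log Real.pi := by
      show α * 1 + β * (Real.log Real.pi : ℂ) = _
      rw [mul_one]
    rwa [h6] at h5
  · refine Submodule.subset_span (Or.inr ?_)
    show IsAlgebraic ℚ (Complex.exp _)
    have h1 : (α + β * Real.log Real.pi) * (t : ℂ) ^ n = α * (t : ℂ) ^ n +
        Complex.log (Real.pi : ℂ) * (β * (t : ℂ) ^ n) := by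
      rw [← Complex.ofReal_log Real.pi_pos.le]
      ring
    rw [h1, Complex.exp_add]
    rwa [Complex.cpow_def_of_ne_zero (by exact_mod_cast Real.pi_ne_zero)] at halg

/-- **Almost all powers.** See the text at the beginning of the file. -/
theorem result :
    (∀ t : ℂ, Transcendental ℚ t → ∀ Y : Submodule (algebraicClosure ℚ ℂ) ℂ,
      FiniteDimensional (algebraicClosure ℚ ℂ) Y → ∀ N : ℕ,
      ({n ∈ exceptions t Y | n < N}.ncard : ℝ) ≤
        2 * finrank (algebraicClosure ℚ ℂ) Y * √(finrank (algebraicClosure ℚ ℂ) Y * N) +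
          (finrank (algebraicClosure ℚ ℂ) Y : ℝ) ^ 2) ∧
    (∀ N : ℕ, ({n : ℕ | n < N ∧
        ¬ (AllTranscendental (Real.exp 1) n ∧ AllTranscendental Real.pi n)}.ncard : ℝ) ≤
      8 * √(2 * N) + 8) := by
  classical
  refine ⟨main, fun N => ?_⟩
  obtain ⟨hfin, hle⟩ := finrank_Y₀
  have he : Transcendental ℚ ((Real.exp 1 : ℝ) : ℂ) := by
    rw [Complex.ofReal_exp, Complex.ofReal_one]
    exact Pool.Agent.H340R2.LW.transcendental_exp_one_complex
  have hpi : Transcendental ℚ ((Real.pi : ℝ) : ℂ) := Pool.Agent.H340R2.LW.transcendental_pi_complex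
  have hb : ∀ t : ℂ, Transcendental ℚ t → ({n ∈ exceptions t Y₀ | n < N}.ncard : ℝ) ≤
      4 * √(2 * N) + 4 := by
    intro t ht
    refine (main t ht Y₀ hfin N).trans ?_
    have h1 : (finrank (algebraicClosure ℚ ℂ) Y₀ : ℝ) ≤ 2 := by exact_mod_cast hle
    have h2 : (0 : ℝ) ≤ finrank (algebraicClosure ℚ ℂ) Y₀ := by positivity
    calc 2 * (finrank (algebraicClosure ℚ ℂ) Y₀ : ℝ) * √(finrank (algebraicClosure ℚ ℂ) Y₀ * N) +
          (finrank (algebraicClosure ℚ ℂ) Y₀ : ℝ) ^ 2 ≤ 2 * 2 * √(2 * N) + 2 ^ 2 := by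
          gcongr
      _ = _ := by ring
  have hsub : {n : ℕ | n < N ∧
        ¬ (AllTranscendental (Real.exp 1) n ∧ AllTranscendental Real.pi n)} ⊆
      {n ∈ exceptions ((Real.exp 1 : ℝ) : ℂ) Y₀ | n < N} ∪
        {n ∈ exceptions ((Real.pi : ℝ) : ℂ) Y₀ | n < N} := by
    rintro n ⟨hn, h⟩
    rw [not_and_or] at h
    rcases h with h | h
    · exact Or.inl ⟨not_all _ _ h, hn⟩
    · exact Or.inr ⟨not_all _ _ h, hn⟩
  have hfin2 : ({n ∈ exceptions ((Real.exp 1 : ℝ) : ℂ) Y₀ | n < N} ∪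
        {n ∈ exceptions ((Real.pi : ℝ) : ℂ) Y₀ | n < N}).Finite := by
    refine (Set.finite_lt_nat N).subset ?_
    rintro n (h | h)
    · exact h.2
    · exact h.2
  have h1 := Set.ncard_le_ncard hsub hfin2
  have h2 := h1.trans (Set.ncard_union_le _ _)
  have h3 := hb _ he
  have h4 := hb _ hpi
  have h5 : ({n : ℕ | n < N ∧
        ¬ (AllTranscendental (Real.exp 1) n ∧ AllTranscendental Real.pi n)}.ncard : ℝ) ≤
      ({n ∈ exceptions ((Real.exp 1 : ℝ) : ℂ) Y₀ | n < N}.ncard : ℝ) +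
        ({n ∈ exceptions ((Real.pi : ℝ) : ℂ) Y₀ | n < N}.ncard : ℝ) := by exact_mod_cast h2
  linarith

end Pool.Agent.Results.MP_a49cf6_nt.AlmostAllPowers
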